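import Pool.Agent.Y856.Sq.Stm

/-!
Elliott-Halberstam for almost all squares (owner helper856): second moment of `AA`, first part
(Parseval over a period, geometric sums, counting the major frequencies).
-/

namespace Pool.Agent.Y248.SQ

open Finset Filter
open Pool.Agent.H442R2.EHI
open Pool.Agent.H469R2.NK (e norm_e e_add conj_e e_zero)
open Pool.Agent.Y856.Sq

lemma pars (N : ℕ) (hN : 1 ≤ N) (c : ℕ → ℂ) (s : ℤ) (T : ℕ) (hT : T ≤ N) :
    ∑ t ∈ range T, ‖∑ h ∈ range N, c h * e (-(((s : ℝ) + t) * h / N))‖ ^ 2 ≤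
      N * ∑ h ∈ range N, ‖c h‖ ^ 2 := by
  have key : ∑ t ∈ range N, ‖∑ h ∈ range N, c h * e (-(((s : ℝ) + t) * h / N))‖ ^ 2 =
      N * ∑ h ∈ range N, ‖c h‖ ^ 2 := by
    have hc : ((∑ t ∈ range N, ‖∑ h ∈ range N, c h * e (-(((s : ℝ) + t) * h / N))‖ ^ 2 : ℝ) : ℂ) =
      ((N * ∑ h ∈ range N, ‖c h‖ ^ 2 : ℝ) : ℂ) := by
      push_cast
      have h1 : ∀ t ∈ range N, ((‖∑ h ∈ range N, c h * e (-(((s:ℝ) + t) * h / N))‖ : ℂ)) ^ 2 =
        ∑ h ∈ range N, ∑ h' ∈ range N,
          (c h * (starRingEnd ℂ) (c h') * e (-((s : ℝ) * ((h:ℝ) - h') / N))) *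
          e ((((h' : ℤ) - h : ℤ) : ℝ) * t / N) := by
        intro t _
        rw [← Complex.mul_conj', map_sum, sum_mul_sum]
        apply sum_congr rfl; intro h _
        apply sum_congr rfl; intro h' _
        rw [map_mul, conj_e]
        have : e (-((s : ℝ) * ((h:ℝ) - h') / N)) * e ((((h' : ℤ) - h : ℤ) : ℝ) * t / N) =
            e (-(((s:ℝ) + t) * h / N)) * e (-(-(((s:ℝ) + t) * h' / N))) := by
          rw [← e_add, ← e_add]; congr 1; push_cast; ring
        rw [mul_assoc (c h * _), this]; ring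
      rw [sum_congr rfl h1, sum_comm, mul_sum]
      apply sum_congr rfl; intro h hh
      rw [sum_comm, sum_eq_single h]
      · rw [← mul_sum, sum_e_range N hN, if_pos (by simp), sub_self, mul_zero, zero_div, neg_zero,
          e_zero, mul_one, Complex.mul_conj']
        ring
      · intro h' hh' hne
        rw [← mul_sum, sum_e_range N hN, if_neg, mul_zero]
        rintro ⟨t, ht⟩
        rw [mem_range] at hh hh'
        have hNz : (0:ℤ) < N := by exact_mod_cast hN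
        rcases lt_trichotomy t 0 with h0 | h0 | h0
        · have : (N:ℤ) * t ≤ -N := by nlinarith
          omega
        · rw [h0, mul_zero] at ht
          apply hne; omega
        · have : (N:ℤ) ≤ N * t := by nlinarith
          omega
      · intro h0; exact absurd hh h0
    exact_mod_cast hc
  rw [← key]
  apply sum_le_sum_of_subset_of_nonneg
  · exact range_subset_range.mpr hT
  · intro i _ _; positivity

/-- geometric sum -/
noncomputable def DD (L0 : ℕ) (θ : ℝ) : ℂ := ∑ l ∈ range L0, e (θ * l)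

lemma DD_le (L0 : ℕ) (θ : ℝ) : ‖DD L0 θ‖ ≤ L0 := by
  unfold DD
  refine (norm_sum_le _ _).trans ?_
  simp [norm_e]

lemma norm_e_sub (t : ℝ) : ‖e t - 1‖ = 2 * |Real.sin (Real.pi * t)| := by
  have h : e t - 1 = Complex.exp (((2 * Real.pi * t : ℝ) : ℂ) * Complex.I) - 1 := rfl
  rw [h, mul_comm, Complex.norm_exp_I_mul_ofReal_sub_one]
  rw [show 2 * Real.pi * t / 2 = Real.pi * t by ring, norm_mul]
  simp

lemma e_sub_one_ge (t : ℝ) : 4 * nint t ≤ ‖e t - 1‖ := by
  set s : ℝ := t - round t with hs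
  have hst : e t = e s := by
    have : t = s + ((round t : ℤ) : ℝ) := by rw [hs]; ring
    rw [this, e_add_int]
  have hn : nint t = |s| := rfl
  rw [hst, norm_e_sub, hn]
  have h1 : |s| ≤ 1 / 2 := abs_sub_round t
  have h3 : |Real.sin (Real.pi * s)| = Real.sin (Real.pi * |s|) := by
    have hp := Real.pi_pos
    rcases le_or_gt 0 s with h0 | h0
    · rw [abs_of_nonneg h0, abs_of_nonneg]
      apply Real.sin_nonneg_of_nonneg_of_le_pi (by positivity)
      rw [abs_of_nonneg h0] at h1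
      nlinarith
    · rw [abs_of_neg h0, mul_neg, Real.sin_neg, abs_of_nonpos]
      rw [abs_of_neg h0] at h1
      have : 0 ≤ Real.sin (Real.pi * (-s)) := by
        apply Real.sin_nonneg_of_nonneg_of_le_pi
        · nlinarith
        · nlinarith
      rw [mul_neg, Real.sin_neg] at this
      linarith
  rw [h3]
  have h4 := Real.mul_le_sin (x := Real.pi * |s|) (by positivity) (by nlinarith [Real.pi_pos])
  have h5 : 2 / Real.pi * (Real.pi * |s|) = 2 * |s| := by
    field_simp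
  rw [h5] at h4
  linarith

lemma DD_small (L0 : ℕ) (θ δ : ℝ) (hδ : 0 < δ) (h : δ < nint θ) : ‖DD L0 θ‖ ≤ 1 / (2 * δ) := by
  have h1 := e_sub_one_ge θ
  have h2 : 0 < ‖e θ - 1‖ := by linarith
  have hne : e θ ≠ 1 := by
    intro h0; rw [h0, sub_self, norm_zero] at h2; exact lt_irrefl _ h2
  have h3 : DD L0 θ = (e θ ^ L0 - 1) / (e θ - 1) := by
    rw [← geom_sum_eq hne]
    unfold DD
    apply sum_congr rfl; intro l _
    rw [e_pow]; congr 1; ring
  rw [h3, norm_div, div_le_div_iff₀ h2 (by positivity)]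
  have h4 : ‖e θ ^ L0 - 1‖ ≤ 2 := by
    refine (norm_sub_le _ _).trans ?_
    rw [norm_pow, norm_e, one_pow, norm_one]; norm_num
  nlinarith

lemma AA_eq (x Q L0 : ℕ) (Δ y : ℤ) (hΔ : |Δ| * L0 ≤ x) (hx : 1 ≤ x) (hy : y ∈ Icc (-(x : ℤ)) (2 * x)) :
    AA (ffz x Q) Δ L0 y = ∑ h ∈ range (16 * x + 1),
      (ch x Q (16 * x + 1) h * DD L0 (Δ * (h : ℝ) / ((16 * x + 1 : ℕ) : ℝ))) *
        e (-((y : ℝ) * h / ((16 * x + 1 : ℕ) : ℝ))) := by
  set N := 16 * x + 1 with hN
  rw [mem_Icc] at hy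
  unfold AA
  have h1 : ∀ l ∈ range L0, ffz x Q (y - Δ * l) = ∑ h ∈ range N,
      ch x Q N h * e (-((y : ℝ) * h / N)) * e (Δ * (h : ℝ) / N * l) := by
    intro l hl
    rw [mem_range] at hl
    have h2 : |Δ * l| ≤ x := by
      rw [abs_mul, Nat.abs_cast]
      refine le_trans ?_ hΔ
      gcongr
    rw [abs_le] at h2
    rw [← ch_inv x Q N (by omega) (y - Δ * l) (by push_cast [hN]; linarith [h2.1, h2.2, hy.1])
      (by push_cast [hN]; linarith [h2.1, h2.2, hy.2])]
    apply sum_congr rfl; intro h _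
    rw [mul_assoc, ← e_add]
    congr 2
    push_cast; ring
  rw [sum_congr rfl h1, sum_comm]
  apply sum_congr rfl; intro h _
  rw [← mul_sum]
  unfold DD
  ring

lemma AA_sum (x Q L0 : ℕ) (Δ : ℤ) (hΔ : |Δ| * L0 ≤ x) (hx : 1 ≤ x) :
    ∑ y ∈ Icc (-(x : ℤ)) (2 * x), ‖AA (ffz x Q) Δ L0 y‖ ^ 2 ≤
      ∑ h ∈ range (16 * x + 1), (((16 * x + 1 : ℕ) : ℝ) * ‖ch x Q (16 * x + 1) h‖ ^ 2) *
        ‖DD L0 (Δ * (h : ℝ) / ((16 * x + 1 : ℕ) : ℝ))‖ ^ 2 := by
  set N := 16 * x + 1 with hN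
  have h1 : ∑ y ∈ Icc (-(x : ℤ)) (2 * x), ‖AA (ffz x Q) Δ L0 y‖ ^ 2 =
      ∑ t ∈ range (3 * x + 1), ‖∑ h ∈ range N,
      (ch x Q N h * DD L0 (Δ * (h : ℝ) / N)) * e (-((((-(x:ℤ) : ℤ) : ℝ) + t) * h / N))‖ ^ 2 := by
    symm
    apply sum_nbij' (fun t : ℕ => -(x:ℤ) + (t : ℤ)) (fun y : ℤ => (y + x).toNat)
    · intro t ht
      rw [mem_range] at ht
      rw [mem_Icc]; omega
    · intro y hy
      rw [mem_Icc] at hy
      rw [mem_range]; omega
    · intro t ht
      rw [mem_range] at ht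
      simp
    · intro y hy
      rw [mem_Icc] at hy
      omega
    · intro t ht
      rw [mem_range] at ht
      rw [AA_eq x Q L0 Δ (-(x:ℤ) + t) hΔ hx (by rw [mem_Icc]; omega)]
      rw [← hN]
      congr 2
      apply sum_congr rfl; intro h _
      congr 2
      push_cast; ring
  rw [h1]
  refine (pars N (by omega) _ _ _ (by omega)).trans (le_of_eq ?_)
  rw [mul_sum]
  apply sum_congr rfl; intro h _
  rw [norm_mul]; ring

end Pool.Agent.Y248.SQ
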