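import Pool.Agent.Y248.SQ.Avg1
import Pool.Agent.H442R2.EHI.Fourier

/-!
Elliott-Halberstam for almost all squares (owner helper856): second moment of `AA`, on average.
-/

namespace Pool.Agent.Y248.SQ

open Finset Filter
open Pool.Agent.H442R2.EHI
open Pool.Agent.H469R2.NK (e norm_e e_add conj_e e_zero)
open Pool.Agent.Y856.Sq

lemma card_near (N : ℕ) (hN : 1 ≤ N) (β δ : ℝ) (hδ : 0 ≤ δ) :
    (((range N).filter (fun h : ℕ => |(h : ℝ) / N - β| ≤ δ)).card : ℝ) ≤ 2 * N * δ + 1 := by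
  have hNr : (0 : ℝ) < N := by exact_mod_cast hN
  have hcard : ((range N).filter (fun h : ℕ => |(h : ℝ) / N - β| ≤ δ)).card ≤
      (Icc ⌈(N : ℝ) * (β - δ)⌉ ⌊(N : ℝ) * (β + δ)⌋).card := by
    apply card_le_card_of_injOn (fun h : ℕ => (h : ℤ))
    · intro h hh
      rw [mem_coe, mem_filter] at hh
      rw [mem_coe, mem_Icc]
      have h1 := hh.2
      rw [abs_le] at h1
      have h2 : (N : ℝ) * ((h : ℝ) / N) = h := by field_simp
      constructor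
      · rw [Int.ceil_le]
        push_cast
        nlinarith [h1.1]
      · rw [Int.le_floor]
        push_cast
        nlinarith [h1.2]
    · intro u _ v _ huv
      simpa using huv
  have h2 : (((Icc ⌈(N : ℝ) * (β - δ)⌉ ⌊(N : ℝ) * (β + δ)⌋).card : ℕ) : ℝ) ≤ 2 * N * δ + 1 := by
    rw [Int.card_Icc]
    have h3 := Int.le_ceil ((N : ℝ) * (β - δ))
    have h4 := Int.floor_le ((N : ℝ) * (β + δ))
    set A := ⌊(N : ℝ) * (β + δ)⌋ + 1 - ⌈(N : ℝ) * (β - δ)⌉ with hA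
    rcases le_or_gt 0 A with h0 | h0
    · have h5 : ((A.toNat : ℕ) : ℝ) = (A : ℝ) := by
        have : ((A.toNat : ℕ) : ℤ) = A := Int.toNat_of_nonneg h0
        exact_mod_cast this
      rw [h5, hA]
      push_cast
      linarith
    · rw [Int.toNat_of_nonpos h0.le]
      push_cast
      positivity
  exact le_trans (by exact_mod_cast hcard) h2

/-- near a fraction with denominator `≤ R` -/
def Mj (R : ℕ) (δ α : ℝ) : Prop := ∃ q : ℕ, 1 ≤ q ∧ q ≤ R ∧ ∃ b : ℤ, |α - (b : ℝ) / q| ≤ δ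

open Classical in
lemma card_maj (N R : ℕ) (hN : 1 ≤ N) (hR : 1 ≤ R) (δ : ℝ) (hδ : 0 ≤ δ) (hδ1 : δ ≤ 1) :
    (((range N).filter (fun h : ℕ => Mj R δ ((h : ℝ) / N))).card : ℝ) ≤
      5 * (R : ℝ) ^ 2 * (2 * N * δ + 1) := by
  have hNr : (0 : ℝ) < N := by exact_mod_cast hN
  have hsub : (range N).filter (fun h : ℕ => Mj R δ ((h : ℝ) / N)) ⊆
      ((Icc 1 R) ×ˢ (Icc (-(2 * R : ℤ)) (2 * R))).biUnion (fun z : ℕ × ℤ =>
        (range N).filter (fun h : ℕ => |(h : ℝ) / N - (z.2 : ℝ) / z.1| ≤ δ)) := by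
    intro h hh
    rw [mem_filter] at hh
    obtain ⟨hh1, q, hq1, hqR, b, hb⟩ := hh
    rw [mem_biUnion]
    refine ⟨(q, b), ?_, by rw [mem_filter]; exact ⟨hh1, hb⟩⟩
    rw [mem_product, mem_Icc, mem_Icc]
    refine ⟨⟨hq1, hqR⟩, ?_⟩
    have hqr : (0 : ℝ) < q := by exact_mod_cast hq1
    have hqRr : (q : ℝ) ≤ R := by exact_mod_cast hqR
    rw [mem_range] at hh1
    have h1 : (h : ℝ) / N ≤ 1 := by
      rw [div_le_one hNr]; exact_mod_cast hh1.le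
    have h2 : 0 ≤ (h : ℝ) / N := by positivity
    rw [abs_le] at hb
    have h3 : (b : ℝ) / q ≤ 2 := by linarith [hb.1]
    have h4 : -2 ≤ (b : ℝ) / q := by linarith [hb.2]
    rw [div_le_iff₀ hqr] at h3
    rw [le_div_iff₀ hqr] at h4
    constructor
    · have : (((-(2 * R : ℤ)) : ℤ) : ℝ) ≤ b := by push_cast; linarith
      exact_mod_cast this
    · have : (b : ℝ) ≤ ((2 * R : ℤ) : ℝ) := by push_cast; linarith
      exact_mod_cast this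
  have h1 := card_le_card hsub
  have h2 := h1.trans card_biUnion_le
  have h3 : (((range N).filter (fun h : ℕ => Mj R δ ((h : ℝ) / N))).card : ℝ) ≤
      ∑ z ∈ (Icc 1 R) ×ˢ (Icc (-(2 * R : ℤ)) (2 * R)),
        (((range N).filter (fun h : ℕ => |(h : ℝ) / N - (z.2 : ℝ) / z.1| ≤ δ)).card : ℝ) := by
    exact_mod_cast h2
  refine h3.trans ((sum_le_sum fun z _ => card_near N hN _ δ hδ).trans ?_)
  rw [sum_const, card_product, Nat.card_Icc, Int.card_Icc, nsmul_eq_mul]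
  have h4 : (2 * (R : ℤ) + 1 - -(2 * R)).toNat = 4 * R + 1 := by omega
  rw [h4]
  have h5 : (((R + 1 - 1) * (4 * R + 1) : ℕ) : ℝ) ≤ 5 * (R : ℝ) ^ 2 := by
    have hRr : (1 : ℝ) ≤ R := by exact_mod_cast hR
    rw [Nat.add_sub_cancel]
    push_cast
    nlinarith
  have h6 : (0 : ℝ) ≤ 2 * N * δ + 1 := by positivity
  exact mul_le_mul_of_nonneg_right h5 h6

lemma W_bound (K1 K P L0 k1 : ℕ) (δ γ : ℝ) (hδ : 0 < δ) :
    ∑ k2 ∈ Ioc K1 K, ∑ p ∈ Icc 1 P, ‖DD L0 (2 * (p : ℝ) * ((k1 : ℝ) - k2) * k2 * γ)‖ ^ 2 ≤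
      ((((Ioc K1 K) ×ˢ (Icc 1 P)).filter (fun z : ℕ × ℕ =>
        nint (2 * (z.2 : ℝ) * ((k1 : ℝ) - z.1) * z.1 * γ) ≤ δ)).card : ℝ) * (L0 : ℝ) ^ 2 +
      K * P * (1 / (2 * δ)) ^ 2 := by
  classical
  rw [← sum_product']
  have h1 : ∀ z ∈ (Ioc K1 K) ×ˢ (Icc 1 P),
      ‖DD L0 (2 * (z.2 : ℝ) * ((k1 : ℝ) - z.1) * z.1 * γ)‖ ^ 2 ≤
      (if nint (2 * (z.2 : ℝ) * ((k1 : ℝ) - z.1) * z.1 * γ) ≤ δ then (L0 : ℝ) ^ 2 else 0) +
        (1 / (2 * δ)) ^ 2 := by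
    intro z _
    split_ifs with h
    · have := DD_le L0 (2 * (z.2 : ℝ) * ((k1 : ℝ) - z.1) * z.1 * γ)
      have h2 : ‖DD L0 (2 * (z.2 : ℝ) * ((k1 : ℝ) - z.1) * z.1 * γ)‖ ^ 2 ≤ (L0 : ℝ) ^ 2 := by
        gcongr
      have h3 : 0 ≤ (1 / (2 * δ)) ^ 2 := by positivity
      linarith
    · push Not at h
      have := DD_small L0 _ δ hδ h
      rw [zero_add]
      gcongr
  refine (sum_le_sum h1).trans ?_
  rw [sum_add_distrib, ← sum_filter, sum_const, sum_const, nsmul_eq_mul, nsmul_eq_mul]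
  have h2 : ((((Ioc K1 K) ×ˢ (Icc 1 P)).card : ℕ) : ℝ) ≤ K * P := by
    rw [card_product, Nat.card_Ioc, Nat.card_Icc, Nat.add_sub_cancel]
    have : (K - K1) * P ≤ K * P := Nat.mul_le_mul_right _ (Nat.sub_le _ _)
    exact_mod_cast this
  have h3 : 0 ≤ (1 / (2 * δ)) ^ 2 := by positivity
  have h4 := mul_le_mul_of_nonneg_right h2 h3
  linarith

lemma W_triv (K1 K P L0 k1 : ℕ) (γ : ℝ) :
    ∑ k2 ∈ Ioc K1 K, ∑ p ∈ Icc 1 P, ‖DD L0 (2 * (p : ℝ) * ((k1 : ℝ) - k2) * k2 * γ)‖ ^ 2 ≤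
      K * P * (L0 : ℝ) ^ 2 := by
  have h1 : ∀ k2 ∈ Ioc K1 K, ∑ p ∈ Icc 1 P,
      ‖DD L0 (2 * (p : ℝ) * ((k1 : ℝ) - k2) * k2 * γ)‖ ^ 2 ≤ P * (L0 : ℝ) ^ 2 := by
    intro k2 _
    calc _ ≤ ∑ p ∈ Icc 1 P, (L0 : ℝ) ^ 2 := by
          refine sum_le_sum fun p _ => ?_
          have := DD_le L0 (2 * (p : ℝ) * ((k1 : ℝ) - k2) * k2 * γ)
          gcongr
      _ = _ := by rw [sum_const, Nat.card_Icc, Nat.add_sub_cancel, nsmul_eq_mul]
  refine (sum_le_sum h1).trans ?_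
  rw [sum_const, Nat.card_Ioc, nsmul_eq_mul, mul_assoc]
  have : ((K - K1 : ℕ) : ℝ) ≤ K := by exact_mod_cast Nat.sub_le _ _
  have h3 : 0 ≤ (P : ℝ) * (L0 : ℝ) ^ 2 := by positivity
  exact mul_le_mul_of_nonneg_right this h3

lemma evt_log_pow' (k : ℕ) (s : ℝ) (hs : 0 < s) : ∀ᶠ x : ℕ in atTop,
    Real.log x ^ k ≤ (x : ℝ) ^ s := by
  have h := (isLittleO_log_rpow_rpow_atTop (k : ℝ) hs).bound (show (0:ℝ) < 1 by norm_num)
  have h2 := tendsto_natCast_atTop_atTop (R := ℝ) |>.eventually h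
  filter_upwards [h2, eventually_ge_atTop 1] with x hx hx1
  have hx1' : (1:ℝ) ≤ x := by exact_mod_cast hx1
  have hl : 0 ≤ Real.log x := Real.log_nonneg hx1'
  rw [Real.rpow_natCast, Real.norm_of_nonneg (by positivity), Real.norm_of_nonneg (by positivity),
    one_mul] at hx
  exact hx

lemma evt_log_ge' (M : ℝ) : ∀ᶠ x : ℕ in atTop, M ≤ Real.log x :=
  (Real.tendsto_log_atTop.comp tendsto_natCast_atTop_atTop).eventually_ge_atTop M

/-- the Fourier coefficients at the major frequencies are small -/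
lemma ch_major (E1 E : ℕ) : ∃ x0 : ℕ, ∀ x : ℕ, x0 ≤ x → ∀ Q R j : ℕ,
    (Q : ℝ) ≤ Real.log x ^ E1 → R ≤ Q →
    Mj R (Real.log x ^ E / x) ((j : ℝ) / ((16 * x + 1 : ℕ) : ℝ)) →
    ((16 * x + 1 : ℕ) : ℝ) * ‖ch x Q (16 * x + 1) j‖ ^ 2 ≤ x / Real.log x ^ (4 * E) := by
  obtain ⟨x1, hx1⟩ := ff_fourier E1 E
  refine ⟨max x1 1, fun x hx Q R j hQ hRQ hj => ?_⟩
  obtain ⟨q, hq1, hqR, b, hb⟩ := hj
  have hxx : 1 ≤ x := le_trans (le_max_right _ _) hx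
  have hxr : (0 : ℝ) < x := by exact_mod_cast hxx
  set N := 16 * x + 1 with hN
  have hNr : (0 : ℝ) < ((N : ℕ) : ℝ) := by positivity
  set r : ℚ := (b : ℚ) / (q : ℚ) with hr
  have hrd : r = Rat.divInt b q := by
    rw [hr, Rat.divInt_eq_div]; push_cast; rfl
  have hden : r.den ≤ q := by
    have h1 : (r.den : ℤ) ∣ (q : ℤ) := by
      rw [hrd]; exact Rat.den_dvd b q
    have h2 : r.den ∣ q := by exact_mod_cast h1
    exact Nat.le_of_dvd (by omega) h2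
  have hcast : (b : ℝ) / q = (r.num : ℝ) / (r.den : ℝ) := by
    rw [← Rat.cast_def, hr]; push_cast; rfl
  have hcop : IsCoprime r.num (r.den : ℤ) := by
    rw [Int.isCoprime_iff_gcd_eq_one]
    have := r.reduced
    rw [Int.gcd, Int.natAbs_natCast]
    exact this
  rw [hcast] at hb
  have h1 := hx1 x (le_trans (le_max_left _ _) hx) Q (by omega) hQ r.den
    (by rw [mem_Icc]; exact ⟨r.den_pos, by omega⟩) r.num hcop _ hb
  have h2 : ‖ch x Q N j‖ ≤ (1 / (N : ℝ)) * (x / Real.log x ^ (2 * E)) := by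
    unfold ch
    rw [norm_mul]
    have h3 : ‖(1 / (N : ℂ))‖ = 1 / (N : ℝ) := by
      rw [norm_div, norm_one, Complex.norm_natCast]
    rw [h3]
    apply mul_le_mul_of_nonneg_left _ (by positivity)
    rw [Int.cast_natCast]
    exact h1
  have hL : 0 ≤ Real.log x := Real.log_nonneg (by exact_mod_cast hxx)
  calc (N : ℝ) * ‖ch x Q N j‖ ^ 2 ≤ N * ((1 / (N : ℝ)) * (x / Real.log x ^ (2 * E))) ^ 2 := by
        gcongr
    _ = (x / N) * (x / Real.log x ^ (4 * E)) := by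
        rw [show 4 * E = (2 * E) * 2 by ring, pow_mul _ (2 * E) 2]
        generalize Real.log x ^ (2 * E) = Z
        field_simp
    _ ≤ 1 * (x / Real.log x ^ (4 * E)) := by
        apply mul_le_mul_of_nonneg_right _ (by positivity)
        rw [div_le_one hNr, hN]; push_cast; linarith
    _ = _ := one_mul _

open Classical in
/-- the deterministic part of the argument -/
lemma assemble (x Q K1 K P L0 k1 M R : ℕ) (δ Z0 m2 zmaj Nmaj : ℝ) (hx : 1 ≤ x)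
    (hk1 : k1 ≤ K) (hPK : 2 * P * K ^ 2 * L0 ≤ x) (hδ : 0 < δ) (hM : 1 ≤ M)
    (_hZ0 : 0 ≤ Z0)
    (hm2 : ∑ h ∈ range (16 * x + 1), ((16 * x + 1 : ℕ) : ℝ) * ‖ch x Q (16 * x + 1) h‖ ^ 2 ≤ m2)
    (hdio : ∀ γ : ℝ, (K : ℝ) * P ≤ M * ((((Ioc K1 K) ×ˢ (Icc 1 P)).filter (fun z : ℕ × ℕ =>
      nint (2 * (z.2 : ℝ) * ((k1 : ℝ) - z.1) * z.1 * γ) ≤ δ)).card : ℝ) → Mj R Z0 γ)
    (hmaj : ∀ j : ℕ, Mj R Z0 ((j : ℝ) / ((16 * x + 1 : ℕ) : ℝ)) →
      ((16 * x + 1 : ℕ) : ℝ) * ‖ch x Q (16 * x + 1) j‖ ^ 2 ≤ zmaj)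
    (hzmaj : 0 ≤ zmaj)
    (hcard : (((range (16 * x + 1)).filter (fun h : ℕ =>
      Mj R Z0 ((h : ℝ) / ((16 * x + 1 : ℕ) : ℝ)))).card : ℝ) ≤ Nmaj) :
    ∑ k2 ∈ Ioc K1 K, ∑ p ∈ Icc 1 P, ∑ y ∈ Icc (-(x : ℤ)) (2 * x),
      ‖AA (ffz x Q) (2 * (p : ℤ) * ((k1 : ℤ) - k2) * k2) L0 y‖ ^ 2 ≤
    m2 * (K * P * (L0 : ℝ) ^ 2 / M + K * P * (1 / (2 * δ)) ^ 2) +
      Nmaj * (zmaj * (K * P * (L0 : ℝ) ^ 2)) := by
  set N := 16 * x + 1 with hN
  set G : ℕ → ℝ := fun h => ((N : ℕ) : ℝ) * ‖ch x Q N h‖ ^ 2 with hG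
  have hG0 : ∀ h, 0 ≤ G h := fun h => by rw [hG]; positivity
  set W : ℕ → ℝ := fun h => ∑ k2 ∈ Ioc K1 K, ∑ p ∈ Icc 1 P,
    ‖DD L0 (2 * (p : ℝ) * ((k1 : ℝ) - k2) * k2 * ((h : ℝ) / N))‖ ^ 2 with hW
  have hMr : (0 : ℝ) < M := by exact_mod_cast hM
  -- step 1
  have h1 : ∑ k2 ∈ Ioc K1 K, ∑ p ∈ Icc 1 P, ∑ y ∈ Icc (-(x : ℤ)) (2 * x),
      ‖AA (ffz x Q) (2 * (p : ℤ) * ((k1 : ℤ) - k2) * k2) L0 y‖ ^ 2 ≤
      ∑ k2 ∈ Ioc K1 K, ∑ p ∈ Icc 1 P, ∑ h ∈ range N, G h *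
        ‖DD L0 (2 * (p : ℝ) * ((k1 : ℝ) - k2) * k2 * ((h : ℝ) / N))‖ ^ 2 := by
    refine sum_le_sum fun k2 hk2 => sum_le_sum fun p hp => ?_
    rw [mem_Ioc] at hk2
    rw [mem_Icc] at hp
    have hΔ : |2 * (p : ℤ) * ((k1 : ℤ) - k2) * k2| * L0 ≤ x := by
      have e1 : |(k1 : ℤ) - k2| ≤ K := by
        rw [abs_le]; constructor <;> omega
      have e2 : |2 * (p : ℤ) * ((k1 : ℤ) - k2) * k2| = 2 * p * |(k1 : ℤ) - k2| * k2 := by
        rw [abs_mul, abs_mul, abs_mul]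
        simp
      rw [e2]
      have e3 : (p : ℤ) ≤ P := by exact_mod_cast hp.2
      have e4 : (k2 : ℤ) ≤ K := by exact_mod_cast hk2.2
      calc 2 * (p : ℤ) * |(k1 : ℤ) - k2| * k2 * L0 ≤ 2 * (P : ℤ) * K * K * L0 := by gcongr
        _ = ((2 * P * K ^ 2 * L0 : ℕ) : ℤ) := by push_cast; ring
        _ ≤ x := by exact_mod_cast hPK
    refine (AA_sum x Q L0 _ hΔ hx).trans (le_of_eq ?_)
    rw [← hN]
    apply sum_congr rfl; intro h _
    rw [hG]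
    simp only
    congr 4
    push_cast; ring
  have h2 : ∑ k2 ∈ Ioc K1 K, ∑ p ∈ Icc 1 P, ∑ h ∈ range N, G h *
        ‖DD L0 (2 * (p : ℝ) * ((k1 : ℝ) - k2) * k2 * ((h : ℝ) / N))‖ ^ 2 =
      ∑ h ∈ range N, G h * W h := by
    have : ∀ k2 ∈ Ioc K1 K, ∑ p ∈ Icc 1 P, ∑ h ∈ range N, G h *
        ‖DD L0 (2 * (p : ℝ) * ((k1 : ℝ) - k2) * k2 * ((h : ℝ) / N))‖ ^ 2 =
        ∑ h ∈ range N, ∑ p ∈ Icc 1 P, G h *
        ‖DD L0 (2 * (p : ℝ) * ((k1 : ℝ) - k2) * k2 * ((h : ℝ) / N))‖ ^ 2 := fun k2 _ => sum_comm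
    rw [sum_congr rfl this, sum_comm]
    apply sum_congr rfl; intro h _
    rw [hW]
    simp only
    rw [mul_sum]
    apply sum_congr rfl; intro k2 _
    rw [mul_sum]
  set B1 : ℝ := K * P * (L0 : ℝ) ^ 2 / M + K * P * (1 / (2 * δ)) ^ 2 with hB1
  have hB10 : 0 ≤ B1 := by positivity
  have h3 : ∀ h ∈ range N, G h * W h ≤ G h * B1 +
      (if Mj R Z0 ((h : ℝ) / (N : ℝ)) then zmaj * (K * P * (L0 : ℝ) ^ 2) else 0) := by
    intro h _
    split_ifs with hj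
    · have e1 := hmaj h hj
      have e2 := W_triv K1 K P L0 k1 ((h : ℝ) / N)
      have e3 : G h * W h ≤ zmaj * (K * P * (L0 : ℝ) ^ 2) := by
        refine mul_le_mul e1 e2 ?_ hzmaj
        positivity
      have e4 : 0 ≤ G h * B1 := mul_nonneg (hG0 h) hB10
      linarith
    · rw [add_zero]
      apply mul_le_mul_of_nonneg_left _ (hG0 h)
      have e1 := W_bound K1 K P L0 k1 δ ((h : ℝ) / N) hδ
      have e2 : ¬ _ := fun hh => hj (hdio _ hh)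
      push Not at e2
      refine e1.trans ?_
      rw [hB1]
      have e3 : ((((Ioc K1 K) ×ˢ (Icc 1 P)).filter (fun z : ℕ × ℕ =>
        nint (2 * (z.2 : ℝ) * ((k1 : ℝ) - z.1) * z.1 * ((h : ℝ) / N)) ≤ δ)).card : ℝ) ≤
          K * P / M := by
        rw [le_div_iff₀ hMr]; linarith
      have e4 : K * P * (L0 : ℝ) ^ 2 / M = K * P / M * (L0 : ℝ) ^ 2 := by ring
      rw [e4]
      gcongr
  refine h1.trans ?_
  rw [h2]
  refine (sum_le_sum h3).trans ?_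
  rw [sum_add_distrib, ← sum_mul, ← sum_filter, sum_const, nsmul_eq_mul]
  have h4 : 0 ≤ zmaj * (K * P * (L0 : ℝ) ^ 2) := by positivity
  have h5 := mul_le_mul_of_nonneg_right hm2 hB10
  have h6 := mul_le_mul_of_nonneg_right hcard h4
  exact add_le_add h5 h6

lemma mom_two (x Q : ℕ) : mom (ffz x Q) x 2 = ∑ n ∈ Icc 1 x, ‖ff x Q n‖ ^ 2 := by
  unfold mom
  symm
  apply sum_nbij' (fun n : ℕ => (n : ℤ)) (fun n : ℤ => n.toNat)
  · intro n hn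
    rw [mem_Icc] at hn ⊢
    omega
  · intro n hn
    rw [mem_Icc] at hn ⊢
    omega
  · intro n hn
    simp
  · intro n hn
    rw [mem_Icc] at hn
    omega
  · intro n hn
    rw [mem_Icc] at hn
    unfold ffz
    rw [if_pos (by omega)]
    simp

theorem t (hd : S_dio) (hm : S_mom) : S_avg := by
  classical
  obtain ⟨a, ha⟩ := hd
  obtain ⟨c, hc⟩ := hm 2
  intro ε U C hε
  set b := U + c + 3 with hb
  set g := b + a * (b + 1) + 1 with hg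
  set E := (a + 1) * (b + 1) + C + U + 10 with hE
  refine ⟨E + 5, fun E1 hE1 => ?_⟩
  obtain ⟨x1, hx1⟩ := hc E1
  obtain ⟨x2, hx2⟩ := ch_major E1 E
  have hev : ∀ᶠ x : ℕ in atTop, x1 ≤ x ∧ x2 ≤ x ∧ 3 ≤ x ∧ 100000 ≤ Real.log x ∧
      Real.log x ^ g ≤ (x : ℝ) ^ ε ∧ Real.log x ^ E ≤ (x : ℝ) ^ (1 : ℝ) := by
    filter_upwards [eventually_ge_atTop x1, eventually_ge_atTop x2, eventually_ge_atTop 3,
      evt_log_ge' 100000, evt_log_pow' g ε hε, evt_log_pow' E 1 one_pos] with x h1 h2 h3 h4 h5 h6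
    exact ⟨h1, h2, h3, h4, h5, h6⟩
  obtain ⟨x0, hx0⟩ := eventually_atTop.mp hev
  refine ⟨x0, fun x hx Q K1 K P L0 k1 hQL hQL2 hK hP hL0 hk1 hK1 hPK hxP => ?_⟩
  obtain ⟨hxx1, hxx2, hx3, hL, hLg, hLE⟩ := hx0 x hx
  set L := Real.log x with hLdef
  have hL1 : 1 ≤ L := by linarith
  have hLpos : 0 < L := by linarith
  have hxr : (3 : ℝ) ≤ x := by exact_mod_cast hx3
  have hxpos : (0 : ℝ) < x := by linarith
  have hpowpos : ∀ n : ℕ, 0 < L ^ n := fun n => by positivity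
  have hmono : ∀ {m n : ℕ}, m ≤ n → L ^ m ≤ L ^ n := fun h => pow_le_pow_right₀ hL1 h
  have hone : ∀ n : ℕ, 1 ≤ L ^ n := fun n => one_le_pow₀ hL1
  -- the parameter `M`
  set M : ℕ := ⌈L ^ b⌉₊ with hM
  have hM1 : L ^ b ≤ M := Nat.le_ceil _
  have hM2 : (M : ℝ) ≤ L ^ (b + 1) := by
    have h1 := (Nat.ceil_lt_add_one (hpowpos b).le).le
    rw [← hM] at h1
    rw [pow_succ]
    have := hone b
    nlinarith
  have hM2' : 2 ≤ M := by
    have h1 : L ≤ L ^ b := by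
      calc L = L ^ 1 := (pow_one L).symm
        _ ≤ L ^ b := hmono (by omega)
    have h2 : (2 : ℝ) ≤ M := by linarith
    exact_mod_cast h2
  have hMa : (M : ℝ) ^ a ≤ L ^ (a * (b + 1)) := by
    calc (M : ℝ) ^ a ≤ (L ^ (b + 1)) ^ a := by gcongr
      _ = L ^ (a * (b + 1)) := by rw [← pow_mul]; congr 1; ring
  have hMaε : (M : ℝ) ^ a ≤ (x : ℝ) ^ ε := hMa.trans ((hmono (by omega)).trans hLg)
  have hxε : 1 ≤ (x : ℝ) ^ ε := (hone g).trans hLg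
  have hKr : 1 ≤ (K : ℝ) := hxε.trans hK
  have hPr : 1 ≤ (P : ℝ) := hxε.trans hP
  have hL0r : 1 ≤ (L0 : ℝ) := hxε.trans hL0
  have hMaK : M ^ a ≤ K := by
    have : (M : ℝ) ^ a ≤ K := hMaε.trans hK
    exact_mod_cast this
  have hMaP : M ^ a ≤ P := by
    have : (M : ℝ) ^ a ≤ P := hMaε.trans hP
    exact_mod_cast this
  set δ : ℝ := L ^ b / L0 with hδ
  have hδ0 : 0 < δ := by positivity
  have hδM : δ * (M : ℝ) ^ a ≤ 1 := by
    rw [hδ, div_mul_eq_mul_div, div_le_one (by linarith)]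
    calc L ^ b * (M : ℝ) ^ a ≤ L ^ b * L ^ (a * (b + 1)) := by gcongr
      _ = L ^ (b + a * (b + 1)) := (pow_add _ _ _).symm
      _ ≤ L ^ g := hmono (by omega)
      _ ≤ L0 := hLg.trans hL0
  set R : ℕ := M ^ a with hR
  have hR1 : 1 ≤ R := Nat.one_le_pow _ _ (by omega)
  have hRr : (R : ℝ) ≤ L ^ (a * (b + 1)) := by rw [hR]; push_cast; exact hMa
  have hRQ : R ≤ Q := by
    have h1 : 2 * (R : ℝ) ≤ 2 * Q := by
      calc 2 * (R : ℝ) ≤ L * L ^ (a * (b + 1)) := by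
            apply mul_le_mul (by linarith) hRr (by positivity) hLpos.le
        _ = L ^ (a * (b + 1) + 1) := by rw [pow_succ]; ring
        _ ≤ L ^ E1 := hmono (by
            have : a * (b + 1) + 1 ≤ E := by
              rw [hE, add_mul]; omega
            omega)
        _ ≤ 2 * Q := hQL2
    have h2 : (R : ℝ) ≤ Q := by linarith
    exact_mod_cast h2
  set Z0 : ℝ := L ^ E / x with hZ0
  have hZ00 : 0 ≤ Z0 := by positivity
  have hZ01 : Z0 ≤ 1 := by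
    rw [hZ0, div_le_one hxpos]
    simpa using hLE
  have hm2 : ∑ h ∈ range (16 * x + 1), ((16 * x + 1 : ℕ) : ℝ) * ‖ch x Q (16 * x + 1) h‖ ^ 2 ≤
      x * L ^ c := by
    rw [← mul_sum, ch_parseval x Q (16 * x + 1) (by omega), ← mom_two]
    exact hx1 x hxx1 Q hQL
  have hdio : ∀ γ : ℝ, (K : ℝ) * P ≤ M * ((((Ioc K1 K) ×ˢ (Icc 1 P)).filter (fun z : ℕ × ℕ =>
      nint (2 * (z.2 : ℝ) * ((k1 : ℝ) - z.1) * z.1 * γ) ≤ δ)).card : ℝ) → Mj R Z0 γ := by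
    intro γ hγ
    obtain ⟨q, hq1, hqM, b', hb'⟩ := ha M K1 K P k1 δ γ hM2' hMaK hMaP hδ0 hδM hk1 hK1 hγ
    refine ⟨q, hq1, hqM, b', hb'.trans ?_⟩
    rw [hZ0, hδ, div_le_div_iff₀ (by positivity) hxpos]
    calc (M : ℝ) ^ a * (L ^ b / L0) * x
        ≤ L ^ (a * (b + 1)) * (L ^ b / L0) * (P * (K : ℝ) ^ 2 * L0 * L ^ C) := by gcongr
      _ = (L ^ (a * (b + 1)) * L ^ b * L ^ C) * (P * (K : ℝ) ^ 2) := by
          field_simp
      _ = L ^ (a * (b + 1) + b + C) * (P * (K : ℝ) ^ 2) := by rw [← pow_add, ← pow_add]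
      _ ≤ L ^ E * (P * (K : ℝ) ^ 2) := by
          have h1 : L ^ (a * (b + 1) + b + C) ≤ L ^ E := hmono (by rw [hE, add_mul]; omega)
          gcongr
  have hcard := card_maj (16 * x + 1) R (by omega) hR1 Z0 hZ00 hZ01
  have hmain := assemble x Q K1 K P L0 k1 M R δ Z0 (x * L ^ c) (x / L ^ (4 * E)) _ (by omega)
    hk1 hPK hδ0 (by omega) hZ00 hm2 hdio (fun j hj => hx2 x hxx2 Q R j hQL hRQ hj) (by positivity)
    hcard
  refine hmain.trans ?_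
  -- the minor part
  have hA : (x : ℝ) * L ^ c * (K * P * (L0 : ℝ) ^ 2 / M + K * P * (1 / (2 * δ)) ^ 2) ≤
      K * P * x * (L0 : ℝ) ^ 2 / L ^ U * (1 / 2) := by
    have e1 : K * P * (L0 : ℝ) ^ 2 / M ≤ K * P * (L0 : ℝ) ^ 2 / L ^ b := by gcongr
    have e2 : K * P * (1 / (2 * δ)) ^ 2 ≤ K * P * (L0 : ℝ) ^ 2 / L ^ b := by
      have h1 : K * P * (1 / (2 * δ)) ^ 2 = K * P * (L0 : ℝ) ^ 2 / (4 * L ^ b * L ^ b) := by
        rw [hδ]; field_simp; norm_num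
      rw [h1]
      have h2 : L ^ b ≤ 4 * L ^ b * L ^ b := by
        have := hone b
        nlinarith
      gcongr
    calc (x : ℝ) * L ^ c * (K * P * (L0 : ℝ) ^ 2 / M + K * P * (1 / (2 * δ)) ^ 2)
        ≤ x * L ^ c * (K * P * (L0 : ℝ) ^ 2 / L ^ b + K * P * (L0 : ℝ) ^ 2 / L ^ b) := by gcongr
      _ = K * P * x * (L0 : ℝ) ^ 2 / L ^ U * (2 / L ^ 3) := by
          rw [hb, pow_add, pow_add]
          field_simp
          ring
      _ ≤ K * P * x * (L0 : ℝ) ^ 2 / L ^ U * (1 / 2) := by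
          have h1 : 2 / L ^ 3 ≤ 1 / 2 := by
            rw [div_le_div_iff₀ (by positivity) (by norm_num)]
            have : L ^ 1 ≤ L ^ 3 := hmono (by omega)
            rw [pow_one] at this
            linarith
          gcongr
  -- the major part
  have hB : 5 * (R : ℝ) ^ 2 * (2 * ((16 * x + 1 : ℕ) : ℝ) * Z0 + 1) *
      (x / L ^ (4 * E) * (K * P * (L0 : ℝ) ^ 2)) ≤ K * P * x * (L0 : ℝ) ^ 2 / L ^ U * (1 / 2) := by
    have e1 : (R : ℝ) ≤ L ^ E := hRr.trans (hmono (by rw [hE, add_mul]; omega))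
    have e2 : 2 * ((16 * x + 1 : ℕ) : ℝ) * Z0 + 1 ≤ 35 * L ^ E := by
      have h1 : ((16 * x + 1 : ℕ) : ℝ) ≤ 17 * x := by push_cast; linarith
      have h2 : 2 * ((16 * x + 1 : ℕ) : ℝ) * Z0 ≤ 34 * L ^ E := by
        calc 2 * ((16 * x + 1 : ℕ) : ℝ) * Z0 ≤ 2 * (17 * x) * Z0 := by gcongr
          _ = 34 * L ^ E := by rw [hZ0]; field_simp; norm_num
      have h3 := hone E
      linarith
    calc 5 * (R : ℝ) ^ 2 * (2 * ((16 * x + 1 : ℕ) : ℝ) * Z0 + 1) *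
          (x / L ^ (4 * E) * (K * P * (L0 : ℝ) ^ 2))
        ≤ 5 * (L ^ E) ^ 2 * (35 * L ^ E) * (x / L ^ (4 * E) * (K * P * (L0 : ℝ) ^ 2)) := by gcongr
      _ = K * P * x * (L0 : ℝ) ^ 2 * (175 / L ^ E) := by
          rw [show 4 * E = E + E + E + E by ring, pow_add, pow_add, pow_add]
          field_simp
          ring
      _ ≤ K * P * x * (L0 : ℝ) ^ 2 * (1 / L ^ U * (1 / 2)) := by
          have h1 : 175 / L ^ E ≤ 1 / L ^ U * (1 / 2) := by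
            rw [one_div_mul_one_div, div_le_div_iff₀ (by positivity) (by positivity)]
            have h2 : L ^ (U + 1) ≤ L ^ E := hmono (by rw [hE]; omega)
            rw [pow_succ] at h2
            have h3 := hpowpos U
            nlinarith
          gcongr
      _ = _ := by ring
  linarith

end Pool.Agent.Y248.SQ
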